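import Mathlib
import Pool.Agent.W345.GK.Cl2

/-!
# The units contribute at most one dimension
-/

set_option autoImplicit false

open Polynomial Finset
open scoped TensorProduct nonZeroDivisors

namespace Pool.Agent.W768.GK
open Pool.Agent.W345.GK

/-! ### The polynomials `pol b` -/

theorem pol_coeff {k : Type} [Field k] {N : ℕ} (b : Fin N → k) (n : ℕ) :
    (pol b).coeff n = if h : n < N then b ⟨n, h⟩ else 0 := by
  unfold pol
  rw [finsetSum_coeff]
  simp only [coeff_C_mul, coeff_X_pow]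
  split_ifs with h
  · rw [Finset.sum_eq_single ⟨n, h⟩]
    · simp
    · intro i _ hi
      have : n ≠ (i : ℕ) := fun e => hi (Fin.ext e.symm)
      simp [this]
    · simp
  · apply Finset.sum_eq_zero
    intro i _
    have : n ≠ (i : ℕ) := fun e => h (e ▸ i.2)
    simp [this]

theorem pol_degree_lt {k : Type} [Field k] {N : ℕ} (b : Fin N → k) : (pol b).degree < N := by
  rw [degree_lt_iff_coeff_zero]
  intro m hm
  rw [pol_coeff, dif_neg (by omega)]

theorem pol_of {k : Type} [Field k] {N : ℕ} (f : k[X]) (hf : f.degree < N) :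
    pol (fun i : Fin N => f.coeff i) = f := by
  ext n
  rw [pol_coeff]
  split_ifs with h
  · rfl
  · exact ((degree_lt_iff_coeff_zero _ _).1 hf n (by omega)).symm

theorem pol_inj {k : Type} [Field k] {N : ℕ} {b b' : Fin N → k} (h : pol b = pol b') :
    b = b' := by
  funext i
  have := congrArg (fun f => coeff f i) h
  simp only [pol_coeff] at this
  simpa using this

theorem pol_zero {k : Type} [Field k] {N : ℕ} : pol (0 : Fin N → k) = 0 := by
  unfold pol
  simp

theorem pol_eq_of_dvd {k : Type} [Field k] {P : k[X]} (hP : P.Monic)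
    {b b' : Fin P.natDegree → k} (h : P ∣ pol b - pol b') : b = b' := by
  apply pol_inj
  have h1 : pol b - pol b' = 0 := by
    apply eq_zero_of_dvd_of_degree_lt h
    rw [degree_eq_natDegree hP.ne_zero]
    exact lt_of_le_of_lt (degree_sub_le _ _) (max_lt (pol_degree_lt b) (pol_degree_lt b'))
  exact sub_eq_zero.1 h1

/-! ### The group `(k[X]/P)ˣ` -/

section grp
variable {k : Type} [Field k] (P : k[X])

abbrev RP : Type := k[X] ⧸ Ideal.span {P}
abbrev GP : Type := (k[X] ⧸ Ideal.span {P})ˣ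

theorem mk_eq_iff (a b : k[X]) : Ideal.Quotient.mk (Ideal.span {P}) a =
    Ideal.Quotient.mk (Ideal.span {P}) b ↔ P ∣ a - b := by
  rw [Ideal.Quotient.eq, Ideal.mem_span_singleton]

theorem mk_zero_iff (a : k[X]) : Ideal.Quotient.mk (Ideal.span {P}) a = 0 ↔ P ∣ a := by
  rw [Ideal.Quotient.eq_zero_iff_mem, Ideal.mem_span_singleton]

noncomputable def rep (g : GP P) : k[X] :=
  (Ideal.Quotient.mk_surjective (I := Ideal.span {P}) (g : RP P)).choose

theorem mk_rep (g : GP P) : Ideal.Quotient.mk (Ideal.span {P}) (rep P g) = (g : RP P) :=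
  (Ideal.Quotient.mk_surjective (I := Ideal.span {P}) (g : RP P)).choose_spec

theorem rep_not_dvd (hP : Irreducible P) (g : GP P) : ¬ P ∣ rep P g := by
  intro h
  have h1 := (mk_zero_iff P _).2 h
  rw [mk_rep] at h1
  have h2 : (1 : RP P) = 0 := by
    rw [← g.inv_mul, h1, mul_zero]
  have h3 : Ideal.Quotient.mk (Ideal.span {P}) (1 : k[X]) = 0 := by rw [map_one, h2]
  exact hP.not_isUnit (isUnit_of_dvd_one ((mk_zero_iff P _).1 h3))

theorem exists_unit (hP : Irreducible P) (a : k[X]) (ha : ¬ P ∣ a) :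
    ∃ g : GP P, (g : RP P) = Ideal.Quotient.mk (Ideal.span {P}) a := by
  obtain ⟨x, y, hxy⟩ := (hP.coprime_iff_not_dvd).2 ha
  have h1 : Ideal.Quotient.mk (Ideal.span {P}) a * Ideal.Quotient.mk (Ideal.span {P}) y = 1 := by
    rw [← map_mul, ← map_one (Ideal.Quotient.mk (Ideal.span {P})), mk_eq_iff]
    refine ⟨-x, ?_⟩
    linear_combination hxy
  exact ⟨⟨_, _, h1, by rw [mul_comm]; exact h1⟩, rfl⟩

/-- coefficients of the remainder -/
noncomputable def crd (g : GP P) : Fin P.natDegree → k := fun i => (rep P g %ₘ P).coeff i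

theorem mk_crd (hm : P.Monic) (g : GP P) :
    Ideal.Quotient.mk (Ideal.span {P}) (pol (crd P g)) = (g : RP P) := by
  have h1 : pol (crd P g) = rep P g %ₘ P := by
    apply pol_of
    rw [← degree_eq_natDegree hm.ne_zero]
    exact degree_modByMonic_lt _ hm
  rw [h1, ← mk_rep, mk_eq_iff]
  refine ⟨-(rep P g /ₘ P), ?_⟩
  linear_combination modByMonic_add_div (rep P g) P

theorem crd_inj (hm : P.Monic) : Function.Injective (crd P) := by
  intro g g' h
  apply Units.ext
  rw [← mk_crd P hm g, ← mk_crd P hm g', h]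

theorem crd_surj (hm : P.Monic) (hP : Irreducible P) (b : Fin P.natDegree → k) (hb : b ≠ 0) :
    ∃ g : GP P, crd P g = b := by
  have h1 : ¬ P ∣ pol b := by
    intro h
    apply hb
    apply pol_eq_of_dvd hm
    rw [pol_zero, sub_zero]
    exact h
  obtain ⟨g, hg⟩ := exists_unit P hP _ h1
  refine ⟨g, ?_⟩
  apply pol_eq_of_dvd hm
  rw [← mk_eq_iff, mk_crd P hm, hg]

theorem finite_GP [Fintype k] (hm : P.Monic) : Finite (GP P) :=
  Finite.of_injective _ (crd_inj P hm)

theorem not_dvd_card [Fintype k] (p : ℕ) [Fact p.Prime] [CharP k p] (hP : Irreducible P)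
    [Fintype (GP P)] : ¬ p ∣ Fintype.card (GP P) := by
  intro h
  have : (Ideal.span {P}).IsPrime := by
    rw [Ideal.span_singleton_prime hP.ne_zero]
    exact hP.prime
  have : CharP (RP P) p := charP_of_injective_algebraMap (algebraMap k (RP P)).injective p
  obtain ⟨x, hx⟩ := exists_prime_orderOf_dvd_card p h
  have h1 : x ^ p = 1 := by rw [← hx]; exact pow_orderOf_eq_one x
  have h2 : ((x : RP P) - 1) ^ p = 0 := by
    rw [sub_pow_char, one_pow, ← Units.val_pow_eq_pow_val, h1, Units.val_one, sub_self]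
  have h3 : (x : RP P) = 1 := sub_eq_zero.1 (pow_eq_zero_iff (Fact.out : p.Prime).ne_zero |>.1 h2)
  have h4 : x = 1 := Units.ext h3
  rw [h4, orderOf_one] at hx
  exact (Fact.out : p.Prime).ne_one hx.symm

end grp

section main
variable {k F Fc : Type} [Field k] [Fintype k] [Field F] [Algebra k F]
  [Field Fc] [Algebra k[X] Fc] {P : k[X]}

/-- the automorphism attached to a class -/
noncomputable def Sg (c : CycD k Fc P) (g : GP P) : Fc ≃ₐ[k[X]] Fc := c.sg (rep P g)

theorem Sg_eq (c : CycD k Fc P) (g : GP P) (a : k[X]) (ha : ¬ P ∣ a)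
    (h : (g : RP P) = Ideal.Quotient.mk (Ideal.span {P}) a) : c.sg a = Sg c g :=
  c.sg_mod a (rep P g) ha (by rw [← mk_eq_iff, mk_rep, h])

theorem Sg_mul (c : CycD k Fc P) (hP : Irreducible P) (g h : GP P) (x : Fc) :
    Sg c (g * h) x = Sg c g (Sg c h x) := by
  have h1 := rep_not_dvd P hP g
  have h2 := rep_not_dvd P hP h
  have h3 : c.sg (rep P h * rep P g) = Sg c (g * h) := by
    apply Sg_eq c (g * h)
    · intro hd
      rcases hP.prime.dvd_or_dvd hd with h' | h'
      · exact h2 h'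
      · exact h1 h'
    · rw [map_mul, mk_rep, mk_rep, mul_comm, Units.val_mul]
  rw [← h3, c.sg_mul _ _ h2 h1]
  rfl

theorem Sg_one (c : CycD k Fc P) (hP : Irreducible P) (x : Fc) : Sg c 1 x = x := by
  have h := Sg_mul c hP 1 1 x
  rw [one_mul] at h
  exact ((Sg c 1).injective h).symm

/-- units outside `P` -/
def UG (c : CycD k Fc P) (hl : c.lam 1 ≠ 0) : Subgroup Fcˣ where
  carrier := {f | ∃ (m : ℤ) (u : Fc), u ≠ 0 ∧ IsIntegral k[X] u ∧ IsIntegral k[X] u⁻¹ ∧
    (f : Fc) = (c.lam 1) ^ m * u}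
  one_mem' := ⟨0, 1, one_ne_zero, isIntegral_one, by simpa using isIntegral_one, by simp⟩
  mul_mem' := by
    rintro x y ⟨m, u, hu, hu1, hu2, hx⟩ ⟨m', u', hu', hu1', hu2', hy⟩
    refine ⟨m + m', u * u', mul_ne_zero hu hu', hu1.mul hu1', ?_, ?_⟩
    · rw [mul_inv]; exact hu2.mul hu2'
    · rw [Units.val_mul, hx, hy, zpow_add₀ hl]; ring
  inv_mem' := by
    rintro x ⟨m, u, hu, hu1, hu2, hx⟩
    refine ⟨-m, u⁻¹, inv_ne_zero hu, hu2, by rwa [inv_inv], ?_⟩
    rw [Units.val_inv_eq_inv_val, hx, mul_inv, zpow_neg]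

omit [Fintype k] in
theorem isIntegral_zpow {y : Fc} (h1 : IsIntegral k[X] y) (h2 : IsIntegral k[X] y⁻¹) (m : ℤ) :
    IsIntegral k[X] (y ^ m) := by
  cases m with
  | ofNat n => simpa using h1.pow n
  | negSucc n =>
    rw [zpow_negSucc, ← inv_pow]
    exact h2.pow _

theorem mem_UG_map (c : CycD k Fc P) (hl : c.lam 1 ≠ 0) (hLAU : S_LAU) (hm : P.Monic)
    (hP : Irreducible P) (g : GP P) (f : Fcˣ) (hf : f ∈ UG c hl) :
    Units.map ((Sg c g : Fc ≃ₐ[k[X]] Fc) : Fc →* Fc) f ∈ UG c hl := by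
  obtain ⟨m, u, hu, hu1, hu2, hx⟩ := hf
  have hn := rep_not_dvd P hP g
  obtain ⟨-, -, h0, h1, h2⟩ := hLAU k Fc P c hm hP (rep P g) hn
  have hlam : Sg c g (c.lam 1) = c.lam 1 * (c.lam (rep P g) / c.lam 1) := by
    rw [mul_div_cancel₀ _ hl]
    show c.sg (rep P g) (c.lam 1) = _
    rw [c.sg_lam _ _ hn, mul_one]
  have h2' : IsIntegral k[X] (c.lam (rep P g) / c.lam 1)⁻¹ := by rwa [inv_div]
  refine ⟨m, (c.lam (rep P g) / c.lam 1) ^ m * Sg c g u, ?_, ?_, ?_, ?_⟩
  · refine mul_ne_zero (zpow_ne_zero _ (div_ne_zero h0 hl)) ?_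
    simpa using hu
  · exact (isIntegral_zpow h1 h2' m).mul (hu1.map (Sg c g))
  · rw [mul_inv, ← zpow_neg]
    refine (isIntegral_zpow h1 h2' (-m)).mul ?_
    rw [← map_inv₀]
    exact hu2.map (Sg c g)
  · have : ((Units.map ((Sg c g : Fc ≃ₐ[k[X]] Fc) : Fc →* Fc) f : Fcˣ) : Fc) = Sg c g (f : Fc) := rfl
    rw [this, hx, map_mul, map_zpow₀, hlam, mul_zpow]
    ring

/-- the action on the units -/
noncomputable def actU (c : CycD k Fc P) (hl : c.lam 1 ≠ 0) (hLAU : S_LAU) (hm : P.Monic)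
    (hP : Irreducible P) : GP P →* AddMonoid.End (Additive (UG c hl)) where
  toFun g := MonoidHom.toAdditive
    (((Units.map ((Sg c g : Fc ≃ₐ[k[X]] Fc) : Fc →* Fc)).comp (UG c hl).subtype).codRestrict
      (UG c hl) (fun f => mem_UG_map c hl hLAU hm hP g f f.2))
  map_one' := by
    ext f
    show Sg c 1 _ = _
    rw [Sg_one c hP]
    rfl
  map_mul' g h := by
    ext f
    show Sg c (g * h) _ = _
    rw [Sg_mul c hP]
    rfl

theorem actU_apply (c : CycD k Fc P) (hl : c.lam 1 ≠ 0) (hLAU : S_LAU) (hm : P.Monic)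
    (hP : Irreducible P) (g : GP P) (f : Additive (UG c hl)) :
    (((actU c hl hLAU hm hP g f).toMul : Fcˣ) : Fc) = Sg c g ((f.toMul : Fcˣ) : Fc) := rfl

/-- the order at infinity -/
noncomputable def vU (c : CycD k Fc P) (hl : c.lam 1 ≠ 0) (ι : Fc →+* LS F) :
    Additive (UG c hl) →+ ℤ where
  toFun f := (ι ((f.toMul : Fcˣ) : Fc)).order
  map_zero' := by
    have : (((0 : Additive (UG c hl)).toMul : Fcˣ) : Fc) = 1 := rfl
    rw [this, map_one, HahnSeries.order_one]
  map_add' f g := by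
    have : (((f + g).toMul : Fcˣ) : Fc) = ((f.toMul : Fcˣ) : Fc) * ((g.toMul : Fcˣ) : Fc) := rfl
    rw [this, map_mul, HahnSeries.order_mul]
    · exact (map_ne_zero ι).2 (Units.ne_zero _)
    · exact (map_ne_zero ι).2 (Units.ne_zero _)

end main

theorem uni : S_LAU → S_RHO → S_C3 → S_UNK → S_LAT → S_UNI := by
  intro hLAU hRHO _ hUNK hLAT k F Fc _ _ _ _ _ _ _ _ _ p _ _ P θ κ c Lam ι D hm hP hθ hLam hι
    hD hκ0 hκ hκq
  have hl : c.lam 1 ≠ 0 := by
    rw [Ne, c.zero_iff]
    exact fun h => hP.not_isUnit (isUnit_of_dvd_one h)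
  have hch : CharP F p := charP_of_injective_algebraMap (algebraMap k F).injective p
  have hfin : Finite (GP P) := finite_GP P hm
  let _ : Fintype (GP P) := Fintype.ofFinite _
  -- the character
  have hker : ∀ a ∈ Ideal.span {P}, ((aeval θ : k[X] →ₐ[k] F) : k[X] →+* F) a = 0 := by
    intro a ha
    rw [Ideal.mem_span_singleton] at ha
    obtain ⟨b, rfl⟩ := ha
    show aeval θ (P * b) = 0
    rw [map_mul, hθ, zero_mul]
  let φ : RP P →+* F := Ideal.Quotient.lift (Ideal.span {P})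
    ((aeval θ : k[X] →ₐ[k] F) : k[X] →+* F) hker
  let χ : GP P →* Fˣ := (powMonoidHom κ).comp (Units.map (φ : RP P →* F))
  have hχ : ∀ (g : GP P) (a : k[X]), (g : RP P) = Ideal.Quotient.mk (Ideal.span {P}) a →
      ((χ g : Fˣ) : F) = (aeval θ a) ^ κ := by
    intro g a ha
    show (φ (g : RP P)) ^ κ = _
    rw [ha]
    rfl
  have hpq : ¬ p ∣ Fintype.card k - 1 := by
    intro h
    have h1 : p ∣ Fintype.card k := by
      rw [← CharP.cast_eq_zero_iff k p]
      exact FiniteField.cast_card_eq_zero k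
    have h2 : 0 < Fintype.card k := Fintype.card_pos
    have h3 : p ∣ 1 := by
      have := (Nat.dvd_sub h1 h)
      rwa [show Fintype.card k - (Fintype.card k - 1) = 1 by omega] at this
    exact (Fact.out : p.Prime).one_lt.ne' (Nat.dvd_one.1 h3)
  have hyp : ∀ u : Additive (UG c hl), (∀ g, vU c hl ι (actU c hl hLAU hm hP g u) = 0) →
      (Fintype.card k - 1) • u = 0 := by
    intro u hu
    obtain ⟨m, v, hv, hv1, hv2, hx⟩ := u.toMul.2
    have h := hUNK k F Fc P c Lam ι hm hP hLam hι ((u.toMul : Fcˣ) : Fc) v m hv hv1 hv2 hx (by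
      intro a ha
      obtain ⟨g, hg⟩ := exists_unit P hP a ha
      rw [Sg_eq c g a ha hg]
      exact hu g)
    apply Additive.toMul.injective
    apply Subtype.ext
    apply Units.ext
    exact h
  obtain ⟨w0, hw0⟩ := hLAT F p (GP P) χ (not_dvd_card P p hP) (Additive (UG c hl))
    (actU c hl hLAU hm hP) (vU c hl ι) (Fintype.card k - 1) hpq hyp
  -- the map to the tensor product over `k`
  let dlg : Additive (UG c hl) →+ F ⊗[k] Fc := AddMonoidHom.mk'
    (fun f => (1 : F) ⊗ₜ[k] (D ((f.toMul : Fcˣ) : Fc) / ((f.toMul : Fcˣ) : Fc))) (by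
      intro f g
      rw [← TensorProduct.tmul_add]
      congr 1
      have : (((f + g).toMul : Fcˣ) : Fc) = ((f.toMul : Fcˣ) : Fc) * ((g.toMul : Fcˣ) : Fc) := rfl
      rw [this, hD.mul]
      have hf : ((f.toMul : Fcˣ) : Fc) ≠ 0 := Units.ne_zero _
      have hg : ((g.toMul : Fcˣ) : Fc) ≠ 0 := Units.ne_zero _
      field_simp
      ring)
  let β : F ⊗[ℤ] Additive (UG c hl) →ₗ[F] F ⊗[k] Fc :=
    LinearMap.liftBaseChange F dlg.toIntLinearMap
  have hβ : ∀ (s : F) (f : Additive (UG c hl)), β (s ⊗ₜ[ℤ] f) =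
      s • ((1 : F) ⊗ₜ[k] (D ((f.toMul : Fcˣ) : Fc) / ((f.toMul : Fcˣ) : Fc))) := by
    intro s f
    show LinearMap.liftBaseChange F dlg.toIntLinearMap (s ⊗ₜ[ℤ] f) = _
    rw [LinearMap.liftBaseChange_tmul]
    rfl
  have hβg : ∀ (g : GP P) (z : F ⊗[ℤ] Additive (UG c hl)),
      β (LinearMap.lTensor F (AddMonoidHom.toIntLinearMap (actU c hl hLAU hm hP g)) z) =
        sgT c (rep P g) (β z) := by
    intro g z
    induction z using TensorProduct.induction_on with
    | zero => simp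
    | tmul s f =>
      rw [LinearMap.lTensor_tmul, hβ, hβ, map_smul]
      congr 1
      show _ = Algebra.TensorProduct.map (AlgHom.id F F)
        ((c.sg (rep P g)).restrictScalars k : Fc →ₐ[k] Fc) _
      rw [Algebra.TensorProduct.map_tmul]
      congr 1
      show D (Sg c g ((f.toMul : Fcˣ) : Fc)) / Sg c g ((f.toMul : Fcˣ) : Fc) = Sg c g _
      rw [map_div₀]
      congr 1
      exact hD.gal _ _ (rep_not_dvd P hP g)
    | add x y hx hy => simp only [map_add, hx, hy]
  obtain ⟨-, hρ0, -, -, -, hρ, -⟩ := hRHO k F P θ κ hm hP hθ hκ0 hκ hκq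
  have hsum : ∀ z : F ⊗[k] Fc, proj c θ κ z =
      - ∑ g : GP P, (((χ g)⁻¹ : Fˣ) : F) • sgT c (rep P g) z := by
    intro z
    unfold proj
    congr 1
    symm
    refine Finset.sum_of_injOn (crd P) (crd_inj P hm).injOn (fun _ _ => by simp) ?_ ?_
    · intro b _ hb
      have hb0 : b = 0 := by
        by_contra hne
        obtain ⟨g, hg⟩ := crd_surj P hm hP b hne
        exact hb ⟨g, by simp, hg⟩
      rw [hb0, pol_zero, hρ0, zero_smul]
    · intro g _
      have hg := mk_crd P hm g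
      have hnd : ¬ P ∣ pol (crd P g) := by
        intro h
        rw [← mk_zero_iff, hg] at h
        have h' := rep_not_dvd P hP g
        apply h'
        rw [← mk_zero_iff, mk_rep, h]
      have e1 : (((χ g)⁻¹ : Fˣ) : F) = rho P.natDegree θ κ (pol (crd P g)) := by
        rw [Units.val_inv_eq_inv_val, hχ g _ hg.symm]
        exact (eq_inv_of_mul_eq_one_left (hρ _ hnd)).symm
      have e2 : sgT c (rep P g) z = sgT c (pol (crd P g)) z := by
        have := Sg_eq c g _ hnd hg.symm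
        unfold sgT
        rw [this]
        rfl
      rw [e1, e2]
  have hfinal : ∀ f : Additive (UG c hl), ∃ s : F, proj c θ κ
      ((1 : F) ⊗ₜ[k] (D ((f.toMul : Fcˣ) : Fc) / ((f.toMul : Fcˣ) : Fc))) = s • β w0 := by
    intro f
    obtain ⟨s, hs⟩ := hw0 ((1 : F) ⊗ₜ[ℤ] f)
    refine ⟨-s, ?_⟩
    have h1 := hβ 1 f
    rw [one_smul] at h1
    rw [← h1, hsum]
    have h2 := congrArg β hs
    rw [map_sum, map_smul] at h2
    simp only [map_smul, hβg] at h2
    rw [h2, neg_smul]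
  refine ⟨β w0, ?_⟩
  rintro f (rfl | ⟨hf0, hf1, hf2⟩)
  · have hmem : Units.mk0 (c.lam 1) hl ∈ UG c hl :=
      ⟨1, 1, one_ne_zero, isIntegral_one, by simpa using isIntegral_one, by simp⟩
    exact hfinal (Additive.ofMul ⟨_, hmem⟩)
  · have hmem : Units.mk0 f hf0 ∈ UG c hl := ⟨0, f, hf0, hf1, hf2, by simp⟩
    exact hfinal (Additive.ofMul ⟨_, hmem⟩)

end Pool.Agent.W768.GK
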